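import Pool.Agent.Run7.h764.JMulti3

/-!
# Joins of Ramsey sets are Ramsey

Let `X_1, …, X_k` be Ramsey sets in `ℝ^n` whose affine hulls have pairwise perpendicular directions
and are independent (the affine hull of the union has the greatest possible dimension). Then the
union of the `X_j` is Ramsey. For `k = 2` the assumption is that the affine hulls of `X_1` and `X_2`
are disjoint and perpendicular; if `X_2` is one point this is the statement of Q1.
-/

set_option autoImplicit false

namespace Pool.Agent.Results.MP_d7e043_co.JoinsOfRamseySets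

open Pool.Agent.Run7.h764.J Pool.Agent.N479.ER Module

/-- `X` is Ramsey: for every `r` there is `N` such that for every colouring of `ℝ^N` with `r`
colours there is an isometric copy `g X` of `X` in `ℝ^N` which is monochromatic. -/
def IsRamsey {n : ℕ} (X : Set (EuclideanSpace ℝ (Fin n))) : Prop :=
  ∀ r : ℕ, ∃ N : ℕ, ∀ c : EuclideanSpace ℝ (Fin N) → Fin r,
    ∃ g : X → EuclideanSpace ℝ (Fin N), Isometry g ∧ ∀ x y : X, c (g x) = c (g y)

lemma goodF_of {n : ℕ} {X : Set (EuclideanSpace ℝ (Fin n))} (hfin : X.Finite)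
    (h : IsRamsey X) : GoodF (fun a : X => (a : EuclideanSpace ℝ (Fin n))) := by
  have : Finite X := hfin.to_subtype
  apply good_of_all
  intro κ _
  obtain ⟨r, ⟨e⟩⟩ := Finite.exists_equiv_fin κ
  obtain ⟨N, H⟩ := h r
  refine ⟨Fin N, inferInstance, fun c => ?_⟩
  obtain ⟨g, hg, hc⟩ := H (fun v => e (c v.ofLp))
  refine ⟨fun a => (g a).ofLp, fun a b => ?_, fun a b => e.injective (hc a b)⟩
  rw [← dist_sq, hg.dist_eq]
  rfl

lemma isRamsey_of {n : ℕ} {X : Set (EuclideanSpace ℝ (Fin n))}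
    (h : GoodF (fun a : X => (a : EuclideanSpace ℝ (Fin n)))) : IsRamsey X := by
  intro r
  obtain ⟨ι, i, W, H⟩ := h (Fin r)
  let e : ι ≃ Fin (Fintype.card ι) := Fintype.equivFin ι
  refine ⟨Fintype.card ι, fun c => ?_⟩
  obtain ⟨f, -, hf, hc⟩ := H (fun v => c (WithLp.toLp 2 (v ∘ e.symm)))
  refine ⟨fun a => WithLp.toLp 2 (f a ∘ e.symm), Isometry.of_dist_eq fun a b => ?_,
    fun a b => hc a b⟩
  refine (sq_eq_sq₀ dist_nonneg dist_nonneg).mp ?_
  rw [dist_sq]
  have h1 : sq (f a ∘ e.symm) (f b ∘ e.symm) = sq (f a) (f b) := by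
    unfold Pool.Agent.N479.ER.sq
    exact Equiv.sum_comp e.symm (fun z => (f a z - f b z) ^ 2)
  exact h1.trans (hf a b)

/-- The union of finitely many Ramsey sets whose affine hulls are independent and have pairwise
perpendicular directions is Ramsey. -/
theorem result : ∀ (n k : ℕ) (X : Fin k → Set (EuclideanSpace ℝ (Fin n))),
    (∀ j, (X j).Finite) → (∀ j, (X j).Nonempty) → (∀ j, IsRamsey (X j)) →
    (∀ i j, i ≠ j → ∀ u ∈ vectorSpan ℝ (X i), ∀ v ∈ vectorSpan ℝ (X j), inner ℝ u v = 0) →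
    finrank ℝ (vectorSpan ℝ (⋃ j, X j)) + 1 = ∑ j, (finrank ℝ (vectorSpan ℝ (X j)) + 1) →
    IsRamsey (⋃ j, X j) :=
  fun _ _ X hfin hne hR hV hdim =>
    isRamsey_of (multi X hfin hne (fun j => goodF_of (hfin j) (hR j)) hV hdim)

end Pool.Agent.Results.MP_d7e043_co.JoinsOfRamseySets
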